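import Pool.Agent.W623.SecC.Defs

set_option autoImplicit false
set_option linter.all false

/-!
The splitting field of a polynomial with separable reduction is unramified (helper308).
-/

open Polynomial

namespace Pool.Agent.W308.SecC

open Pool.Agent.W623.SecC

universe u v w

lemma ff {κ : Type u} [Field κ] [Finite κ] (g : κ[X]) (hg : g.Separable) :
    ∃ p n : ℕ, p.Prime ∧ 0 < n ∧ (p : κ) = 0 ∧ (∀ a : κ, a ^ (p ^ n) = a) ∧
      g ∣ X ^ (p ^ n) - X := by
  classical
  obtain ⟨p, hp⟩ := CharP.exists κ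
  haveI := Fintype.ofFinite κ
  let E := g.SplittingField
  haveI : Finite E := Module.finite_of_finite κ
  haveI := Fintype.ofFinite E
  haveI : CharP E p := charP_of_injective_algebraMap (algebraMap κ E).injective p
  obtain ⟨n, hpp, hn⟩ := FiniteField.card E p
  refine ⟨p, n, hpp, n.pos, CharP.cast_eq_zero κ p, fun a => ?_, ?_⟩
  · apply (algebraMap κ E).injective
    rw [map_pow, ← hn, FiniteField.pow_card]
  · rw [← Polynomial.map_dvd_map' (algebraMap κ E), Polynomial.map_sub, Polynomial.map_pow,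
      Polynomial.map_X, ← hn]
    refine (Polynomial.SplittingField.splits g).dvd_of_roots_le_roots ?_ ?_
    · exact Polynomial.map_ne_zero hg.ne_zero
    · rw [FiniteField.roots_X_pow_card_sub_X, Multiset.le_iff_subset
        (Polynomial.nodup_roots (hg.map (f := algebraMap κ E)))]
      intro x _
      exact Finset.mem_univ x

lemma isU_of_val {K : Type u} [Field K] (V : ValuationSubring K) {x : K} (h : V.valuation x = 1) :
    IsU V x := by
  refine ⟨fun h0 => ?_, ?_, ?_⟩
  · rw [h0, map_zero] at h; exact zero_ne_one h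
  · exact (V.valuation_le_one_iff x).1 h.le
  · apply (V.valuation_le_one_iff _).1
    rw [map_inv₀, h, inv_one]

lemma isU_of_mem {K : Type u} [Field K] (V : ValuationSubring K) {x : K} (h : x ∈ V)
    (h' : x ∉ V.nonunits) : IsU V x := by
  apply isU_of_val
  have h1 := (V.valuation_le_one_iff x).2 h
  rw [ValuationSubring.mem_nonunits_iff, not_lt] at h'
  exact le_antisymm h1 h'

lemma root_mem {A : Type u} {kb : Type w} [CommRing A] [Field kb] [Algebra A kb]
    (V : ValuationSubring kb) (hA : ∀ a : A, algebraMap A kb a ∈ V) (f : A[X])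
    (hf : IsUnit f.leadingCoeff) (θ : kb) (hθ : aeval θ f = 0) : θ ∈ V := by
  let φ : A →+* V := (algebraMap A kb).codRestrict V.toSubring hA
  have hφ : V.subtype.comp φ = algebraMap A kb := by ext a; rfl
  obtain ⟨u, hu⟩ := hf
  have hint : IsIntegral V θ := by
    refine ⟨C (φ (u⁻¹ : Aˣ)) * f.map φ, ?_, ?_⟩
    · apply monic_C_mul_of_mul_leadingCoeff_eq_one
      have h1 : (f.map φ).leadingCoeff = φ f.leadingCoeff := by
        apply Polynomial.leadingCoeff_map_of_leadingCoeff_ne_zero
        rw [← hu]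
        exact (u.isUnit.map φ).ne_zero
      rw [h1, ← hu, ← map_mul, Units.inv_mul, map_one]
    · rw [eval₂_mul, eval₂_map]
      have h2 : (algebraMap V kb).comp φ = algebraMap A kb := hφ
      rw [h2]
      have h3 : eval₂ (algebraMap A kb) θ f = 0 := hθ
      rw [h3, mul_zero]
  obtain ⟨y, hy⟩ := IsIntegrallyClosed.algebraMap_eq_of_integral hint
  rw [← hy]
  exact y.2

section main

variable {A k : Type u} {kb : Type w} [CommRing A] [IsDomain A] [IsDiscreteValuationRing A]
    [Field k] [Field kb] [Algebra A k] [Algebra k kb] [Algebra A kb] [IsScalarTower A k kb]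
    [IsFractionRing A k] [Finite (IsLocalRing.ResidueField A)]

/-- the ring generated by the roots -/
abbrev B0 (kb : Type w) [Field kb] [Algebra A kb] (f : A[X]) : Subalgebra A kb :=
  Algebra.adjoin A {θ : kb | aeval θ f = 0}

/-- Frobenius modulo the uniformizer -/
lemma frob (ϖ : A) (hϖ : Irreducible ϖ) (f : A[X])
    (hs : (f.map (IsLocalRing.residue A)).Separable)
    (hnt : Nontrivial (B0 kb f ⧸ Ideal.span {algebraMap A (B0 kb f) ϖ})) :
    ∃ Q : ℕ, 2 ≤ Q ∧ ∀ b : B0 kb f, ∃ c : B0 kb f, b ^ Q - b = algebraMap A (B0 kb f) ϖ * c := by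
  obtain ⟨p, n, hp, hn, hp0, hpow, hdvd⟩ := ff _ hs
  refine ⟨p ^ n, ?_, ?_⟩
  · calc 2 ≤ p := hp.two_le
      _ = p ^ 1 := (pow_one p).symm
      _ ≤ p ^ n := Nat.pow_le_pow_right hp.pos hn
  set I : Ideal (B0 kb f) := Ideal.span {algebraMap A (B0 kb f) ϖ} with hI
  set R := B0 kb f ⧸ I with hR
  -- the map from the residue field
  have hker : ∀ a ∈ IsLocalRing.maximalIdeal A,
      ((Ideal.Quotient.mk I).comp (algebraMap A (B0 kb f))) a = 0 := by
    intro a ha
    rw [hϖ.maximalIdeal_eq, Ideal.mem_span_singleton] at ha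
    obtain ⟨b, rfl⟩ := ha
    rw [RingHom.comp_apply, map_mul, map_mul]
    have : (Ideal.Quotient.mk I) (algebraMap A (B0 kb f) ϖ) = 0 :=
      Ideal.Quotient.eq_zero_iff_mem.2 (Ideal.mem_span_singleton_self _)
    rw [this, zero_mul]
  let ψ : IsLocalRing.ResidueField A →+* R := Ideal.Quotient.lift (IsLocalRing.maximalIdeal A)
    ((Ideal.Quotient.mk I).comp (algebraMap A (B0 kb f))) hker
  have hψ : ψ.comp (IsLocalRing.residue A) = (Ideal.Quotient.mk I).comp (algebraMap A (B0 kb f)) := by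
    ext a; rfl
  haveI : CharP R p := (CharP.charP_iff_prime_eq_zero hp).2 (by
    rw [← map_natCast ψ p, hp0, map_zero])
  haveI : ExpChar R p := ExpChar.prime hp
  have key : ∀ (x : kb) (hx : x ∈ B0 kb f), (Ideal.Quotient.mk I ⟨x, hx⟩) ^ (p ^ n) =
      Ideal.Quotient.mk I ⟨x, hx⟩ := by
    intro x hx
    induction hx using Algebra.adjoin_induction with
    | mem θ hθ =>
      have hθB : θ ∈ B0 kb f := Algebra.subset_adjoin hθ
      obtain ⟨g, hg⟩ := hdvd
      have h1 : (f.map (IsLocalRing.residue A)).eval₂ ψ (Ideal.Quotient.mk I ⟨θ, hθB⟩) = 0 := by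
        rw [eval₂_map, hψ, ← hom_eval₂]
        have h2 : eval₂ (algebraMap A (B0 kb f)) (⟨θ, hθB⟩ : B0 kb f) f = 0 := by
          apply Subtype.ext
          have h3 := hom_eval₂ f (algebraMap A (B0 kb f)) ((B0 kb f).val.toRingHom)
            (⟨θ, hθB⟩ : B0 kb f)
          have h4 : (B0 kb f).val.toRingHom.comp (algebraMap A (B0 kb f)) = algebraMap A kb := by
            ext a; rfl
          rw [h4] at h3
          exact h3.trans hθ
        rw [h2, map_zero]
      have h5 := congrArg (fun P => P.eval₂ ψ (Ideal.Quotient.mk I ⟨θ, hθB⟩)) hg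
      simp only [eval₂_sub, eval₂_pow, eval₂_X, eval₂_mul] at h5
      rw [h1, zero_mul] at h5
      exact sub_eq_zero.1 h5
    | algebraMap a =>
      have h1 : (Ideal.Quotient.mk I ⟨algebraMap A kb a, (B0 kb f).algebraMap_mem a⟩) =
          ψ (IsLocalRing.residue A a) := rfl
      rw [h1, ← map_pow, hpow]
    | add x y hx hy h1 h2 =>
      have hxB : x ∈ B0 kb f := hx
      have hyB : y ∈ B0 kb f := hy
      have h3 : (Ideal.Quotient.mk I ⟨x + y, (B0 kb f).add_mem hxB hyB⟩) =
          Ideal.Quotient.mk I ⟨x, hxB⟩ + Ideal.Quotient.mk I ⟨y, hyB⟩ := rfl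
      rw [h3, add_pow_expChar_pow, h1, h2]
    | mul x y hx hy h1 h2 =>
      have hxB : x ∈ B0 kb f := hx
      have hyB : y ∈ B0 kb f := hy
      have h3 : (Ideal.Quotient.mk I ⟨x * y, (B0 kb f).mul_mem hxB hyB⟩) =
          Ideal.Quotient.mk I ⟨x, hxB⟩ * Ideal.Quotient.mk I ⟨y, hyB⟩ := rfl
      rw [h3, mul_pow, h1, h2]
  intro b
  have h1 := key b.1 b.2
  have h2 : b ^ (p ^ n) - b ∈ I := by
    rw [← Ideal.Quotient.eq_zero_iff_mem, map_sub, map_pow, sub_eq_zero]
    exact h1
  exact Ideal.mem_span_singleton'.1 h2 |>.imp fun c hc => by rw [← hc, mul_comm]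

/-- nonzero elements of `B0` are powers of the uniformizer times units -/
lemma core (V : ValuationSubring kb) (hA : ∀ a : A, algebraMap A kb a ∈ V)
    (hm : ∀ a ∈ IsLocalRing.maximalIdeal A, algebraMap A kb a ∈ V.nonunits)
    (hinj : Function.Injective (algebraMap A kb))
    (ϖ : A) (hϖ : Irreducible ϖ) (f : A[X]) (hf : IsUnit f.leadingCoeff)
    (hs : (f.map (IsLocalRing.residue A)).Separable)
    (b : kb) (hb : b ∈ B0 kb f) (hb0 : b ≠ 0) :
    ∃ j : ℕ, V.valuation (b / algebraMap A kb ϖ ^ j) = 1 := by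
  have hBV : ∀ x ∈ B0 kb f, x ∈ V := by
    intro x hx
    induction hx using Algebra.adjoin_induction with
    | mem θ hθ => exact root_mem V hA f hf θ hθ
    | algebraMap a => exact hA a
    | add x y _ _ h1 h2 => exact V.add_mem _ _ h1 h2
    | mul x y _ _ h1 h2 => exact V.mul_mem _ _ h1 h2
  let incl : B0 kb f →+* V :=
    ((B0 kb f).val.toRingHom).codRestrict V.toSubring (fun x => hBV x.1 x.2)
  let P : Ideal (B0 kb f) := (IsLocalRing.maximalIdeal V).comap incl
  haveI hPp : P.IsPrime := Ideal.comap_isPrime _ _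
  have hP : ∀ x : B0 kb f, x ∈ P ↔ V.valuation (x : kb) < 1 := fun x =>
    V.valuation_lt_one_iff (incl x)
  have hval : ∀ x : B0 kb f, x ∉ P → V.valuation (x : kb) = 1 := by
    intro x hx
    rw [hP, not_lt] at hx
    exact le_antisymm ((V.valuation_le_one_iff _).2 (hBV x.1 x.2)) hx
  -- Noetherian
  have hfin : {θ : kb | aeval θ f = 0}.Finite := by
    have hne : f.map (algebraMap A kb) ≠ 0 := by
      intro h0
      have h1 := congrArg (fun g => g.coeff f.natDegree) h0
      simp only [coeff_map, coeff_zero] at h1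
      exact (hf.map (algebraMap A kb)).ne_zero h1
    classical
    refine (f.map (algebraMap A kb)).roots.toFinset.finite_toSet.subset ?_
    intro θ hθ
    simp only [Finset.mem_coe, Multiset.mem_toFinset]
    rw [mem_roots hne, IsRoot.def, eval_map]
    exact hθ
  haveI : Algebra.FiniteType A (B0 kb f) :=
    (Subalgebra.fg_iff_finiteType _).1 (Subalgebra.fg_def.2 ⟨_, hfin, rfl⟩)
  haveI : IsNoetherianRing (B0 kb f) := Algebra.FiniteType.isNoetherianRing A (B0 kb f)
  set ϖB : B0 kb f := algebraMap A (B0 kb f) ϖ with hϖB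
  have hϖm : ϖ ∈ IsLocalRing.maximalIdeal A := by
    rw [hϖ.maximalIdeal_eq]; exact Ideal.mem_span_singleton_self _
  have hϖP : ϖB ∈ P := by
    rw [hP]
    exact (ValuationSubring.mem_nonunits_iff V).1 (hm ϖ hϖm)
  have hϖ0 : algebraMap A kb ϖ ≠ 0 := fun h => hϖ.ne_zero (hinj (by rw [h, map_zero]))
  have hnt : Nontrivial (B0 kb f ⧸ Ideal.span {ϖB}) := by
    rw [Ideal.Quotient.nontrivial_iff]
    intro h
    have h1 : Ideal.span {ϖB} ≤ P := (Ideal.span_singleton_le_iff_mem P).2 hϖP
    rw [h, top_le_iff] at h1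
    exact hPp.ne_top h1
  obtain ⟨Q, hQ, hfrob⟩ := frob (kb := kb) ϖ hϖ f hs hnt
  let Bp := Localization.AtPrime P
  haveI : IsNoetherianRing Bp := IsLocalization.isNoetherianRing P.primeCompl Bp inferInstance
  set M := IsLocalRing.maximalIdeal Bp with hM
  have hMle : M ≤ Ideal.span {algebraMap (B0 kb f) Bp ϖB} := by
    intro x hx
    obtain ⟨y, s, rfl⟩ := IsLocalization.exists_mk'_eq P.primeCompl x
    have hy : y ∈ P := (IsLocalization.AtPrime.mk'_mem_maximal_iff Bp P y s).1 hx
    obtain ⟨c, hc⟩ := hfrob y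
    have he : 1 - y ^ (Q - 1) ∈ P.primeCompl := by
      intro h
      have h1 : y ^ (Q - 1) ∈ P := P.pow_mem_of_mem hy _ (by omega)
      have h2 := P.add_mem h h1
      rw [sub_add_cancel] at h2
      exact hPp.ne_top ((Ideal.eq_top_iff_one P).2 h2)
    have hye : y * (1 - y ^ (Q - 1)) = ϖB * (-c) := by
      have h3 : y * y ^ (Q - 1) = y ^ Q := by
        rw [← pow_succ']
        congr 1
        omega
      rw [mul_sub, mul_one, h3]
      linear_combination -hc
    rw [Ideal.mem_span_singleton']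
    refine ⟨IsLocalization.mk' Bp (-c) (s * ⟨_, he⟩), ?_⟩
    rw [mul_comm, IsLocalization.mul_mk'_eq_mk'_of_mul, IsLocalization.mk'_eq_iff_eq]
    congr 1
    push_cast
    rw [← hye]
    ring
  have hϖM : algebraMap (B0 kb f) Bp ϖB ∈ M :=
    (IsLocalization.AtPrime.to_map_mem_maximal_iff Bp P ϖB).2 hϖP
  have hinjB : Function.Injective (algebraMap (B0 kb f) Bp) :=
    IsLocalization.injective Bp P.primeCompl_le_nonZeroDivisors
  set b' : B0 kb f := ⟨b, hb⟩ with hb'
  have hx0 : algebraMap (B0 kb f) Bp b' ≠ 0 := by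
    rw [map_ne_zero_iff _ hinjB]
    exact fun h => hb0 (congrArg Subtype.val h)
  have hkrull := Ideal.iInf_pow_eq_bot_of_isLocalRing M (IsLocalRing.maximalIdeal.isMaximal Bp).ne_top
  have hex : ∃ n, algebraMap (B0 kb f) Bp b' ∉ M ^ n := by
    by_contra hcon
    push Not at hcon
    apply hx0
    have : algebraMap (B0 kb f) Bp b' ∈ ⨅ i, M ^ i := by
      rw [Ideal.mem_iInf]; exact hcon
    rw [hkrull] at this
    exact this
  classical
  have hn := Nat.find_spec hex
  have hmin := fun m (hm : m < Nat.find hex) => not_not.1 (Nat.find_min hex hm)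
  obtain ⟨j, hj⟩ : ∃ j, Nat.find hex = j + 1 := by
    apply Nat.exists_eq_succ_of_ne_zero
    intro h0
    rw [h0, pow_zero, Ideal.one_eq_top] at hn
    exact hn Submodule.mem_top
  rw [hj] at hn
  have hxj : algebraMap (B0 kb f) Bp b' ∈ M ^ j := hmin j (by omega)
  have hxj' : algebraMap (B0 kb f) Bp b' ∈ Ideal.span {algebraMap (B0 kb f) Bp ϖB ^ j} := by
    rw [← Ideal.span_singleton_pow]
    exact Ideal.pow_right_mono hMle j hxj
  obtain ⟨u, hu⟩ := Ideal.mem_span_singleton'.1 hxj'
  have huM : u ∉ M := by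
    intro h
    apply hn
    rw [← hu, pow_succ']
    exact Ideal.mul_mem_mul h (Ideal.pow_mem_pow hϖM j)
  obtain ⟨c, s, rfl⟩ := IsLocalization.exists_mk'_eq P.primeCompl u
  have hc : c ∉ P := fun h => huM ((IsLocalization.AtPrime.mk'_mem_maximal_iff Bp P c s).2 h)
  have h5 : b' * s = ϖB ^ j * c := by
    apply hinjB
    rw [map_mul, ← hu, map_mul, map_pow]
    have h6 := IsLocalization.mk'_spec Bp c s
    linear_combination (algebraMap (B0 kb f) Bp ϖB ^ j) * h6
  have h7 : b * (s : B0 kb f) = algebraMap A kb ϖ ^ j * c := congrArg Subtype.val h5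
  refine ⟨j, ?_⟩
  have h8 : b / algebraMap A kb ϖ ^ j = (c : kb) / ((s : B0 kb f) : kb) := by
    have hs0 : ((s : B0 kb f) : kb) ≠ 0 := by
      intro h
      have := hval s.1 s.2
      rw [h, map_zero] at this
      exact zero_ne_one this
    rw [div_eq_div_iff (pow_ne_zero _ hϖ0) hs0, h7, mul_comm]
  rw [h8, map_div₀, hval c hc, hval s.1 s.2, div_one]

end main

theorem partB2 : PartB2.{u, w} := by
  intro A k kb _ _ _ _ _ _ _ _ _ _ _ _ _ V hA hm ϖ hϖ f hf hs c hc hc0
  have hinj : Function.Injective (algebraMap A kb) := by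
    rw [IsScalarTower.algebraMap_eq A k kb]
    exact (algebraMap k kb).injective.comp (IsFractionRing.injective A k)
  have halg : Algebra.IsAlgebraic k kb := IsAlgClosure.isAlgebraic
  have hc' : c ∈ Algebra.adjoin k {θ : kb | aeval θ f = 0} := by
    rw [← IntermediateField.adjoin_toSubalgebra_of_isAlgebraic
      (fun x _ => Algebra.IsAlgebraic.isAlgebraic x)]
    exact hc
  have h1 : ∃ a : A, a ≠ 0 ∧ algebraMap A kb a * c ∈ B0 kb f := by
    clear hc hc0
    induction hc' using Algebra.adjoin_induction with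
    | mem θ hθ =>
      refine ⟨1, one_ne_zero, ?_⟩
      rw [map_one, one_mul]
      exact Algebra.subset_adjoin hθ
    | algebraMap r =>
      obtain ⟨x, y, hy, rfl⟩ := IsFractionRing.div_surjective (A := A) r
      have hy0 : y ≠ 0 := nonZeroDivisors.ne_zero hy
      refine ⟨y, hy0, ?_⟩
      have h2 : algebraMap A kb y ≠ 0 := fun h => hy0 (hinj (by rw [h, map_zero]))
      have h3 : algebraMap A kb y * algebraMap k kb (algebraMap A k x / algebraMap A k y) =
          algebraMap A kb x := by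
        rw [map_div₀, ← IsScalarTower.algebraMap_apply, ← IsScalarTower.algebraMap_apply]
        field_simp
      rw [h3]
      exact (B0 kb f).algebraMap_mem x
    | add x y _ _ hx hy =>
      obtain ⟨a, ha, ha'⟩ := hx
      obtain ⟨a', h2, h2'⟩ := hy
      refine ⟨a * a', mul_ne_zero ha h2, ?_⟩
      have : algebraMap A kb (a * a') * (x + y) = algebraMap A kb a' * (algebraMap A kb a * x) +
          algebraMap A kb a * (algebraMap A kb a' * y) := by rw [map_mul]; ring
      rw [this]
      exact (B0 kb f).add_mem ((B0 kb f).mul_mem ((B0 kb f).algebraMap_mem a') ha')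
        ((B0 kb f).mul_mem ((B0 kb f).algebraMap_mem a) h2')
    | mul x y _ _ hx hy =>
      obtain ⟨a, ha, ha'⟩ := hx
      obtain ⟨a', h2, h2'⟩ := hy
      refine ⟨a * a', mul_ne_zero ha h2, ?_⟩
      have : algebraMap A kb (a * a') * (x * y) = (algebraMap A kb a * x) *
          (algebraMap A kb a' * y) := by rw [map_mul]; ring
      rw [this]
      exact (B0 kb f).mul_mem ha' h2'
  obtain ⟨a, ha, hac⟩ := h1
  have ha0 : algebraMap A kb a ≠ 0 := fun h => ha (hinj (by rw [h, map_zero]))
  obtain ⟨j, hj⟩ := core V hA hm hinj ϖ hϖ f hf hs _ hac (mul_ne_zero ha0 hc0)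
  obtain ⟨i, u, hu⟩ := IsDiscreteValuationRing.eq_unit_mul_pow_irreducible ha hϖ
  have hϖ0 : algebraMap A kb ϖ ≠ 0 := fun h => hϖ.ne_zero (hinj (by rw [h, map_zero]))
  have hu0 : algebraMap A kb (u : A) ≠ 0 := (u.isUnit.map (algebraMap A kb)).ne_zero
  have hvu : V.valuation (algebraMap A kb (u : A)) = 1 := by
    have h2 := (V.valuation_le_one_iff _).2 (hA u)
    have h3 := (V.valuation_le_one_iff _).2 (hA (u⁻¹ : Aˣ))
    have h4 : V.valuation (algebraMap A kb (u : A)) * V.valuation (algebraMap A kb (u⁻¹ : Aˣ)) = 1 := by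
      rw [← map_mul, ← map_mul, Units.mul_inv, map_one, map_one]
    refine le_antisymm h2 ?_
    calc 1 = V.valuation (algebraMap A kb (u : A)) * V.valuation (algebraMap A kb (u⁻¹ : Aˣ)) :=
        h4.symm
      _ ≤ V.valuation (algebraMap A kb (u : A)) * 1 := mul_le_mul_right h3 _
      _ = _ := mul_one _
  refine ⟨(j : ℤ) - i, isU_of_val V ?_⟩
  have h5 : c / algebraMap A kb ϖ ^ ((j : ℤ) - i) =
      (algebraMap A kb a * c / algebraMap A kb ϖ ^ j) / algebraMap A kb (u : A) := by
    rw [zpow_sub₀ hϖ0, zpow_natCast, zpow_natCast, hu, map_mul, map_pow]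
    field_simp
  rw [h5, map_div₀, hj, hvu, div_one]

end Pool.Agent.W308.SecC
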